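import Mathlib

set_option autoImplicit false
open MeasureTheory Filter Topology Set Metric
open scoped NNReal ENNReal

namespace Pool.Agent.Helper49.ND.Defs

/-- The Euclidean space of dimension `d`. -/
abbrev E (d : ℕ) : Type := EuclideanSpace ℝ (Fin d)

/-- `μ` is a Radon (locally finite Borel) measure of polynomial growth on `ℝ^d`, which is upper
doubling with some function `lam`. -/
structure IsGrowthMeasure {d : ℕ} (μ : Measure (E d)) : Prop where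
  locallyFinite : IsLocallyFiniteMeasure μ
  growth : ∃ C₀ : ℝ, ∀ (x : E d) (r : ℝ), 0 < r → μ (ball x r) ≤ ENNReal.ofReal (C₀ * r ^ d)
  upperDoubling : ∃ (lam : E d → ℝ → ℝ) (C : ℝ), ∀ (x : E d) (r : ℝ), 0 < r →
    0 < lam x r ∧ μ (ball x r) ≤ ENNReal.ofReal (C * lam x r) ∧ lam x r ≤ C * lam x (r / 2)

/-- `K` is a Calderon-Zygmund kernel of dimension `d`: size and smoothness conditions. -/
def IsCZKernel {d : ℕ} (K : E d → E d → ℂ) : Prop :=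
  ∃ C δ : ℝ, 0 < δ ∧ δ ≤ 1 ∧
    (∀ x y, x ≠ y → ‖K x y‖ ≤ C / ‖x - y‖ ^ d) ∧
    (∀ x x' y, x ≠ y → 2 * ‖x - x'‖ ≤ ‖x - y‖ →
      ‖K x y - K x' y‖ + ‖K y x - K y x'‖ ≤ C * ‖x - x'‖ ^ δ / ‖x - y‖ ^ ((d : ℝ) + δ))

/-- `T` is a bounded linear operator on `L²(μ)`, acting on functions (representatives). -/
structure IsL2Operator {d : ℕ} (μ : Measure (E d)) (T : (E d → ℂ) → E d → ℂ) : Prop where
  add : ∀ f g, MemLp f 2 μ → MemLp g 2 μ → T (fun x => f x + g x) =ᵐ[μ] fun x => T f x + T g x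
  smul : ∀ (c : ℂ) (f), MemLp f 2 μ → T (fun x => c * f x) =ᵐ[μ] fun x => c * T f x
  bounded : ∃ A : ℝ≥0, ∀ f, MemLp f 2 μ → MemLp (T f) 2 μ ∧ eLpNorm (T f) 2 μ ≤ A * eLpNorm f 2 μ

/-- `T` is associated with the kernel `K`: `T f (x) = ∫ K(x, y) f(y) dμ(y)` off the support of `f`,
for compactly supported `f`. -/
def IsAssociated {d : ℕ} (μ : Measure (E d)) (K : E d → E d → ℂ) (T : (E d → ℂ) → E d → ℂ) : Prop :=
  ∀ f, MemLp f 2 μ → HasCompactSupport f → ∀ᵐ x ∂μ, x ∉ tsupport f → T f x = ∫ y, K x y * f y ∂μ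

/-- `w` is a weight: `w > 0` almost everywhere, and `w` and `1/w` are locally integrable. -/
structure IsWeight {d : ℕ} (μ : Measure (E d)) (w : E d → ℝ) : Prop where
  measurable : Measurable w
  pos : ∀ᵐ x ∂μ, 0 < w x
  locInt : LocallyIntegrable w μ
  locIntInv : LocallyIntegrable (fun x => (w x)⁻¹) μ

/-- The characteristic `[w]` of the class `A_2^η(μ)`, a supremum over all balls. -/
noncomputable def A2char {d : ℕ} (η : ℝ) (μ : Measure (E d)) (w : E d → ℝ) : ℝ≥0∞ :=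
  ⨆ (x : E d) (r : ℝ) (_ : 0 < r),
    ((∫⁻ y in ball x r, ENNReal.ofReal (w y) ∂μ) /
      (μ (ball x r) ^ (1 - η) * ENNReal.ofReal (r ^ ((d : ℝ) * η)))) *
    ((∫⁻ y in ball x r, ENNReal.ofReal (w y)⁻¹ ∂μ) /
      (μ (ball x r) ^ (1 - η) * ENNReal.ofReal (r ^ ((d : ℝ) * η))))

/-- The weighted inequality `‖T f‖ ≤ A ‖f‖` in `L²(w dμ)`, for the bounded measurable functions `f`
with compact support. -/
def WeightedBound {d : ℕ} (μ : Measure (E d)) (w : E d → ℝ) (T : (E d → ℂ) → E d → ℂ)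
    (A : ℝ≥0∞) : Prop :=
  ∀ f : E d → ℂ, Measurable f → (∃ M : ℝ, ∀ x, ‖f x‖ ≤ M) → HasCompactSupport f →
    ∫⁻ x, ‖T f x‖ₑ ^ 2 * ENNReal.ofReal (w x) ∂μ ≤
      A ^ 2 * ∫⁻ x, ‖f x‖ₑ ^ 2 * ENNReal.ofReal (w x) ∂μ

end Pool.Agent.Helper49.ND.Defs
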