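import Mathlib
import Pool.Agent.Helper49.ND.Defs

set_option autoImplicit false
open MeasureTheory Filter Topology Set Metric
open scoped NNReal ENNReal
open Pool.Agent.Helper49.ND.Defs

namespace Pool.Agent.Helper49.ND.Ker

variable {d : ℕ}

/-- one-dimensional profile -/
noncomputable def prof (t : ℝ) : ℝ := Real.exp (-Real.exp t)

lemma prof_lip : LipschitzWith 1 prof := by
  apply lipschitzWith_of_nnnorm_deriv_le
  · unfold prof; fun_prop
  · intro t
    have h1 : HasDerivAt prof (Real.exp (-Real.exp t) * (-Real.exp t)) t := by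
      unfold prof
      exact ((Real.hasDerivAt_exp t).neg).exp
    rw [h1.deriv, ← NNReal.coe_le_coe, coe_nnnorm, Real.norm_eq_abs, abs_mul, abs_neg, Real.abs_exp, Real.abs_exp]
    have h2 : Real.exp t + 1 ≤ Real.exp (Real.exp t) := Real.add_one_le_exp _
    rw [Real.exp_neg, NNReal.coe_one, ← div_eq_inv_mul, div_le_one (Real.exp_pos _)]
    linarith

/-- the cut-off scale -/
noncomputable def rho (x : E d) : ℝ := prof ‖x‖

lemma rho_pos (x : E d) : 0 < rho x := Real.exp_pos _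

lemma rho_le_one (x : E d) : rho x ≤ 1 := by
  unfold rho prof
  rw [Real.exp_le_one_iff]
  have := Real.exp_pos ‖x‖
  linarith

lemma rho_lip (x y : E d) : |rho x - rho y| ≤ ‖x - y‖ := by
  have h1 := prof_lip.dist_le_mul ‖x‖ ‖y‖
  rw [Real.dist_eq, Real.dist_eq] at h1
  simp only [NNReal.coe_one, one_mul] at h1
  exact h1.trans (abs_norm_sub_norm_le x y)

lemma rho_cont : Continuous (rho : E d → ℝ) := by unfold rho prof; fun_prop

/-- the real kernel -/
noncomputable def kR (x y : E d) : ℝ := max 0 (((‖x - y‖ + rho x + rho y) ^ d)⁻¹ - 1)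

lemma kR_nonneg (x y : E d) : 0 ≤ kR x y := le_max_left _ _

lemma den_pos (x y : E d) : 0 < ‖x - y‖ + rho x + rho y := by
  have := rho_pos x
  have := rho_pos y
  have := norm_nonneg (x - y)
  positivity

lemma kR_le (x y : E d) : kR x y ≤ ((‖x - y‖ + rho x + rho y) ^ d)⁻¹ := by
  have := den_pos x y
  apply max_le (by positivity)
  linarith

lemma kR_cont : Continuous (fun p : E d × E d => kR p.1 p.2) := by
  unfold kR
  apply Continuous.max continuous_const
  apply Continuous.sub _ continuous_const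
  apply Continuous.inv₀
  · have h1 : Continuous (fun p : E d × E d => rho p.1) := rho_cont.comp continuous_fst
    have h2 : Continuous (fun p : E d × E d => rho p.2) := rho_cont.comp continuous_snd
    fun_prop
  · intro p
    have := den_pos p.1 p.2
    positivity

lemma kR_symm (x y : E d) : kR x y = kR y x := by
  unfold kR
  rw [norm_sub_rev, add_right_comm]

lemma kR_zero (x y : E d) (h : 1 ≤ ‖x - y‖) : kR x y = 0 := by
  unfold kR
  apply max_eq_left
  have h1 : 1 ≤ (‖x - y‖ + rho x + rho y) ^ d := by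
    apply one_le_pow₀
    have := rho_pos x
    have := rho_pos y
    linarith
  have h2 : ((‖x - y‖ + rho x + rho y) ^ d)⁻¹ ≤ 1 := inv_le_one_of_one_le₀ h1
  linarith

lemma kR_bdd (x y : E d) : kR x y ≤ (rho x ^ d)⁻¹ := by
  refine (kR_le x y).trans ?_
  have h1 := rho_pos x
  have h2 := rho_pos y
  have h3 := norm_nonneg (x - y)
  gcongr
  linarith

lemma kR_size (x y : E d) (h : x ≠ y) : kR x y ≤ 1 / ‖x - y‖ ^ d := by
  refine (kR_le x y).trans ?_
  have h1 := rho_pos x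
  have h2 := rho_pos y
  have h3 : 0 < ‖x - y‖ := norm_pos_iff.mpr (sub_ne_zero.mpr h)
  rw [one_div]
  gcongr
  linarith

lemma inv_pow_diff (d : ℕ) {m u v : ℝ} (hm : 0 < m) (hu : m ≤ u) (hv : m ≤ v) :
    |(u ^ d)⁻¹ - (v ^ d)⁻¹| ≤ d * |u - v| / m ^ (d + 1) := by
  have hu0 : 0 < u := hm.trans_le hu
  have hv0 : 0 < v := hm.trans_le hv
  induction d with
  | zero => simp
  | succ d ih =>
    have e1 : (u ^ (d + 1))⁻¹ - (v ^ (d + 1))⁻¹ = (u ^ d)⁻¹ * ((v - u) / (u * v)) + v⁻¹ * ((u ^ d)⁻¹ - (v ^ d)⁻¹) := by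
      field_simp
      ring
    rw [e1]
    refine (abs_add_le _ _).trans ?_
    rw [abs_mul, abs_mul, abs_div, abs_of_pos (show 0 < (u ^ d)⁻¹ by positivity),
      abs_of_pos (show 0 < v⁻¹ by positivity), abs_of_pos (show 0 < u * v by positivity), abs_sub_comm v u]
    have a1 : (u ^ d)⁻¹ * (|u - v| / (u * v)) ≤ (m ^ d)⁻¹ * (|u - v| / (m * m)) := by gcongr
    have a2 : v⁻¹ * |(u ^ d)⁻¹ - (v ^ d)⁻¹| ≤ m⁻¹ * (d * |u - v| / m ^ (d + 1)) := by gcongr
    refine (add_le_add a1 a2).trans (le_of_eq ?_)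
    push_cast
    field_simp
    ring

lemma kR_smooth (x x' y : E d) (h : x ≠ y) (h2 : 2 * ‖x - x'‖ ≤ ‖x - y‖) :
    |kR x y - kR x' y| ≤ (d : ℝ) * 2 ^ (d + 2) * ‖x - x'‖ / ‖x - y‖ ^ (d + 1) := by
  have h3 : 0 < ‖x - y‖ := norm_pos_iff.mpr (sub_ne_zero.mpr h)
  have hy := rho_pos y
  have hx := rho_pos x
  have hx' := rho_pos x'
  have t1 : ‖x - y‖ ≤ ‖x - x'‖ + ‖x' - y‖ := norm_sub_le_norm_sub_add_norm_sub x x' y
  have t2 : ‖x' - y‖ ≤ ‖x' - x‖ + ‖x - y‖ := norm_sub_le_norm_sub_add_norm_sub x' x y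
  rw [norm_sub_rev x' x] at t2
  have t3 := rho_lip x x'
  have hm : 0 < ‖x - y‖ / 2 := by positivity
  have k1 := inv_pow_diff d (m := ‖x - y‖ / 2) (u := ‖x - y‖ + rho x + rho y) (v := ‖x' - y‖ + rho x' + rho y)
    hm (by linarith) (by linarith)
  have k2 : |(‖x - y‖ + rho x + rho y) - (‖x' - y‖ + rho x' + rho y)| ≤ 2 * ‖x - x'‖ := by
    rw [abs_le] at t3 ⊢
    constructor <;> linarith [t3.1, t3.2]
  have k3 : |kR x y - kR x' y| ≤ |((‖x - y‖ + rho x + rho y) ^ d)⁻¹ - ((‖x' - y‖ + rho x' + rho y) ^ d)⁻¹| := by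
    unfold kR
    have := abs_max_sub_max_le_abs (((‖x - y‖ + rho x + rho y) ^ d)⁻¹ - 1) (((‖x' - y‖ + rho x' + rho y) ^ d)⁻¹ - 1) 0
    rw [max_comm 0, max_comm 0]
    refine this.trans (le_of_eq ?_)
    congr 1
    ring
  refine k3.trans (k1.trans ?_)
  calc (d : ℝ) * |(‖x - y‖ + rho x + rho y) - (‖x' - y‖ + rho x' + rho y)| / (‖x - y‖ / 2) ^ (d + 1)
      ≤ d * (2 * ‖x - x'‖) / (‖x - y‖ / 2) ^ (d + 1) := by gcongr
    _ = (d : ℝ) * 2 ^ (d + 2) * ‖x - x'‖ / ‖x - y‖ ^ (d + 1) := by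
      rw [div_pow]
      field_simp
      ring

/-- the complex kernel -/
noncomputable def K (x y : E d) : ℂ := (kR x y : ℂ)

lemma K_cz (d : ℕ) : IsCZKernel (K : E d → E d → ℂ) := by
  refine ⟨(d : ℝ) * 2 ^ (d + 3) + 1, 1, one_pos, le_rfl, ?_, ?_⟩
  · intro x y h
    unfold K
    rw [Complex.norm_real, Real.norm_eq_abs, abs_of_nonneg (kR_nonneg x y)]
    refine (kR_size x y h).trans ?_
    gcongr
    have : (0:ℝ) ≤ (d : ℝ) * 2 ^ (d + 3) := by positivity
    linarith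
  · intro x x' y h h2
    unfold K
    rw [← Complex.ofReal_sub, ← Complex.ofReal_sub, Complex.norm_real, Complex.norm_real, Real.norm_eq_abs,
      Real.norm_eq_abs, kR_symm y x, kR_symm y x', Real.rpow_one]
    have h3 : 0 < ‖x - y‖ := norm_pos_iff.mpr (sub_ne_zero.mpr h)
    have e : ‖x - y‖ ^ ((d : ℝ) + 1) = ‖x - y‖ ^ (d + 1) := by
      rw [← Real.rpow_natCast]; push_cast; rfl
    rw [e]
    have k := kR_smooth x x' y h h2
    calc |kR x y - kR x' y| + |kR x y - kR x' y|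
        ≤ (d : ℝ) * 2 ^ (d + 2) * ‖x - x'‖ / ‖x - y‖ ^ (d + 1) +
          (d : ℝ) * 2 ^ (d + 2) * ‖x - x'‖ / ‖x - y‖ ^ (d + 1) := add_le_add k k
      _ = ((d : ℝ) * 2 ^ (d + 3)) * ‖x - x'‖ / ‖x - y‖ ^ (d + 1) := by ring
      _ ≤ _ := by
        gcongr
        linarith

end Pool.Agent.Helper49.ND.Ker
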