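import Mathlib
import Pool.Agent.Helper49.ND.Defs

set_option autoImplicit false
open MeasureTheory Filter Topology Set Metric
open scoped NNReal ENNReal

namespace Pool.Agent.Helper49.ND.Radial

open Pool.Agent.Helper49.ND.Defs

variable {d : ℕ}

lemma nontriv (hd : 1 ≤ d) : Nontrivial (E d) := by
  have : Nonempty (Fin d) := ⟨⟨0, hd⟩⟩
  infer_instance

/-- volume of the unit ball -/
noncomputable def vb (d : ℕ) : ℝ := (volume : Measure (E d)).real (ball (0 : E d) 1)

lemma vb_pos (d : ℕ) : 0 < vb d := by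
  unfold vb Measure.real
  apply ENNReal.toReal_pos
  · exact (isOpen_ball.measure_pos volume ⟨0, mem_ball_self one_pos⟩).ne'
  · exact measure_ball_lt_top.ne

lemma vol_ball (x : E d) {r : ℝ} (hr : 0 < r) :
    (volume : Measure (E d)) (ball x r) = ENNReal.ofReal (r ^ d * vb d) := by
  rw [Measure.addHaar_ball_of_pos volume x hr]
  have h1 : Module.finrank ℝ (E d) = d := by simp
  rw [h1, ENNReal.ofReal_mul (by positivity)]
  congr 1
  unfold vb Measure.real
  rw [ENNReal.ofReal_toReal measure_ball_lt_top.ne]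

lemma cont_ker (d : ℕ) {ρ : ℝ} (hρ : 0 < ρ) : Continuous (fun z : E d => ((‖z‖ + ρ) ^ d)⁻¹) := by
  apply Continuous.inv₀ (by fun_prop)
  intro z
  have := norm_nonneg z
  positivity

lemma radial_eq (hd : 1 ≤ d) {R ρ : ℝ} :
    ∫ z in ball (0 : E d) R, ((‖z‖ + ρ) ^ d)⁻¹ =
      d * vb d * ∫ y in Ioo (0:ℝ) R, y ^ (d - 1) * ((y + ρ) ^ d)⁻¹ := by
  have := nontriv hd
  have h := integral_fun_norm_addHaar (E := E d) volume ((Iio R).indicator (fun y : ℝ => ((y + ρ) ^ d)⁻¹))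
  have h1 : Module.finrank ℝ (E d) = d := by simp
  rw [h1] at h
  have e1 : ∫ z in ball (0 : E d) R, ((‖z‖ + ρ) ^ d)⁻¹ =
      ∫ x : E d, (Iio R).indicator (fun y : ℝ => ((y + ρ) ^ d)⁻¹) ‖x‖ := by
    rw [← integral_indicator measurableSet_ball]
    congr 1
    funext z
    by_cases hz : ‖z‖ < R
    · rw [indicator_of_mem (show z ∈ ball (0 : E d) R by simpa using hz), indicator_of_mem (show ‖z‖ ∈ Iio R from hz)]
    · rw [indicator_of_notMem (show z ∉ ball (0 : E d) R by simpa using hz), indicator_of_notMem (show ‖z‖ ∉ Iio R from hz)]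
  have e2 : ∫ y in Ioi (0 : ℝ), y ^ (d - 1) • (Iio R).indicator (fun y : ℝ => ((y + ρ) ^ d)⁻¹) y =
      ∫ y in Ioo (0:ℝ) R, y ^ (d - 1) * ((y + ρ) ^ d)⁻¹ := by
    rw [← Ioi_inter_Iio, ← integral_indicator measurableSet_Ioi, ← integral_indicator (measurableSet_Ioi.inter measurableSet_Iio)]
    congr 1
    funext y
    by_cases h2 : y ∈ Ioi (0:ℝ)
    · by_cases h3 : y ∈ Iio R
      · rw [indicator_of_mem h2, indicator_of_mem (show y ∈ Ioi (0:ℝ) ∩ Iio R from ⟨h2, h3⟩), indicator_of_mem h3]; rfl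
      · rw [indicator_of_mem h2, indicator_of_notMem (show y ∉ Ioi (0:ℝ) ∩ Iio R from fun h => h3 h.2), indicator_of_notMem h3]; simp
    · rw [indicator_of_notMem h2, indicator_of_notMem (show y ∉ Ioi (0:ℝ) ∩ Iio R from fun h => h2 h.1)]
  rw [e1, h, e2]
  simp only [nsmul_eq_mul, smul_eq_mul, vb]
  ring

lemma cont_1d {ρ : ℝ} (hρ : 0 < ρ) (a b : ℝ) (ha : 0 ≤ a) :
    IntegrableOn (fun y : ℝ => y ^ (d - 1) * ((y + ρ) ^ d)⁻¹) (Ioo a b) := by
  have : ContinuousOn (fun y : ℝ => y ^ (d - 1) * ((y + ρ) ^ d)⁻¹) (Icc a b) := by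
    apply ContinuousOn.mul (by fun_prop)
    apply ContinuousOn.inv₀ (by fun_prop)
    intro y hy
    have : 0 ≤ y := ha.trans hy.1
    positivity
  exact (this.integrableOn_Icc).mono_set Ioo_subset_Icc_self

lemma oneD_upper (hd : 1 ≤ d) {R ρ : ℝ} (hR : 0 < R) (hρ : 0 < ρ) :
    ∫ y in Ioo (0:ℝ) R, y ^ (d - 1) * ((y + ρ) ^ d)⁻¹ ≤ Real.log ((R + ρ) / ρ) := by
  have h1 : ∫ y in Ioo (0:ℝ) R, (y + ρ)⁻¹ = Real.log ((R + ρ) / ρ) := by
    rw [← integral_Ioc_eq_integral_Ioo, ← intervalIntegral.integral_of_le hR.le,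
      intervalIntegral.integral_comp_add_right (fun y => y⁻¹), zero_add, integral_inv]
    rw [uIcc_of_le (by linarith)]
    intro h
    linarith [h.1]
  rw [← h1]
  have hI : IntegrableOn (fun y : ℝ => (y + ρ)⁻¹) (Ioo 0 R) := by
    have : ContinuousOn (fun y : ℝ => (y + ρ)⁻¹) (Icc 0 R) := by
      apply ContinuousOn.inv₀ (by fun_prop)
      intro y hy
      have := hy.1
      positivity
    exact (this.integrableOn_Icc).mono_set Ioo_subset_Icc_self
  apply setIntegral_mono_on (cont_1d hρ 0 R le_rfl) hI measurableSet_Ioo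
  intro y hy
  have hy0 : 0 < y := hy.1
  obtain ⟨m, rfl⟩ : ∃ m, d = m + 1 := ⟨d - 1, by omega⟩
  simp only [Nat.add_sub_cancel]
  rw [← div_eq_mul_inv, div_le_iff₀ (by positivity), pow_succ, ← mul_assoc, mul_comm _ ((y + ρ) ^ m), mul_assoc,
    inv_mul_cancel₀ (by positivity), mul_one]
  gcongr
  linarith

lemma oneD_lower (hd : 1 ≤ d) {R ρ : ℝ} (hρ : 0 < ρ) (hR : ρ < R) :
    ((2:ℝ) ^ d)⁻¹ * Real.log (R / ρ) ≤ ∫ y in Ioo (0:ℝ) R, y ^ (d - 1) * ((y + ρ) ^ d)⁻¹ := by
  have h1 : ∫ y in Ioo ρ R, ((2:ℝ) ^ d)⁻¹ * y⁻¹ = ((2:ℝ) ^ d)⁻¹ * Real.log (R / ρ) := by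
    rw [integral_const_mul, ← integral_Ioc_eq_integral_Ioo, ← intervalIntegral.integral_of_le hR.le, integral_inv]
    rw [uIcc_of_le hR.le]
    intro h
    linarith [h.1]
  rw [← h1]
  have hI : IntegrableOn (fun y : ℝ => ((2:ℝ) ^ d)⁻¹ * y⁻¹) (Ioo ρ R) := by
    have : ContinuousOn (fun y : ℝ => ((2:ℝ) ^ d)⁻¹ * y⁻¹) (Icc ρ R) := by
      apply ContinuousOn.mul (by fun_prop)
      apply ContinuousOn.inv₀ (by fun_prop)
      intro y hy
      have := hy.1
      have : 0 < y := by linarith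
      positivity
    exact (this.integrableOn_Icc).mono_set Ioo_subset_Icc_self
  calc ∫ y in Ioo ρ R, ((2:ℝ) ^ d)⁻¹ * y⁻¹ ≤ ∫ y in Ioo ρ R, y ^ (d - 1) * ((y + ρ) ^ d)⁻¹ := by
        apply setIntegral_mono_on hI (cont_1d hρ ρ R hρ.le) measurableSet_Ioo
        intro y hy
        have hy0 : 0 < y := hρ.trans hy.1
        obtain ⟨m, rfl⟩ : ∃ m, d = m + 1 := ⟨d - 1, by omega⟩
        simp only [Nat.add_sub_cancel]
        rw [← mul_inv, inv_le_iff_one_le_mul₀ (by positivity)]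
        rw [← div_eq_mul_inv, mul_comm, ← mul_div_assoc, le_div_iff₀ (by positivity), one_mul]
        have h2 : (y + ρ) ^ (m + 1) ≤ (2 * y) ^ (m + 1) := by
          gcongr
          linarith [hy.1]
        refine h2.trans (le_of_eq ?_)
        ring
    _ ≤ _ := by
        apply setIntegral_mono_set (cont_1d hρ 0 R le_rfl)
        · filter_upwards [ae_restrict_mem measurableSet_Ioo] with y hy
          have : 0 < y := hy.1
          simp only [Pi.zero_apply]
          positivity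
        · exact (Ioo_subset_Ioo_left hρ.le).eventuallyLE

lemma upper (hd : 1 ≤ d) {R ρ : ℝ} (hR : 0 < R) (hρ : 0 < ρ) :
    ∫⁻ z in ball (0 : E d) R, ENNReal.ofReal ((‖z‖ + ρ) ^ d)⁻¹ ≤
      ENNReal.ofReal (d * vb d * Real.log ((R + ρ) / ρ)) := by
  rw [← ofReal_integral_eq_lintegral_ofReal]
  · apply ENNReal.ofReal_le_ofReal
    rw [radial_eq hd]
    have := oneD_upper (d := d) hd hR hρ
    have h2 := (vb_pos d).le
    gcongr
  · exact ((cont_ker d hρ).continuousOn.integrableOn_compact (isCompact_closedBall (0 : E d) R)).mono_set ball_subset_closedBall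
  · exact Filter.Eventually.of_forall fun z => by
      have := norm_nonneg z
      simp only [Pi.zero_apply]
      positivity

lemma lower (hd : 1 ≤ d) {R ρ : ℝ} (hρ : 0 < ρ) (hR : ρ < R) :
    ENNReal.ofReal (d * vb d * (((2:ℝ) ^ d)⁻¹ * Real.log (R / ρ))) ≤
    ∫⁻ z in ball (0 : E d) R, ENNReal.ofReal ((‖z‖ + ρ) ^ d)⁻¹ := by
  rw [← ofReal_integral_eq_lintegral_ofReal]
  · apply ENNReal.ofReal_le_ofReal
    rw [radial_eq hd]
    have := oneD_lower (d := d) hd hρ hR
    have h2 := (vb_pos d).le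
    gcongr
  · exact ((cont_ker d hρ).continuousOn.integrableOn_compact (isCompact_closedBall (0 : E d) R)).mono_set ball_subset_closedBall
  · exact Filter.Eventually.of_forall fun z => by
      have := norm_nonneg z
      simp only [Pi.zero_apply]
      positivity

end Pool.Agent.Helper49.ND.Radial
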