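import Mathlib

set_option autoImplicit false
open MeasureTheory Filter Topology Set
open scoped NNReal ENNReal

namespace Pool.Agent.Helper49.ND.Schur

variable {α : Type} [MeasurableSpace α]

lemma sqrt_sq' (a : ℝ≥0∞) : (a ^ (1/2 : ℝ)) ^ 2 = a := by
  rw [← ENNReal.rpow_natCast, ← ENNReal.rpow_mul]; simp

lemma sqrt_mul_self' (a : ℝ≥0∞) : (a ^ (1/2 : ℝ)) * (a ^ (1/2 : ℝ)) = a := by
  rw [← pow_two, sqrt_sq']

/-- Cauchy-Schwarz -/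
lemma cs (μ : Measure α) (k g : α → ℝ≥0∞) (hk : Measurable k) (hg : AEMeasurable g μ) :
    (∫⁻ y, k y * g y ∂μ) ^ 2 ≤ (∫⁻ y, k y ∂μ) * ∫⁻ y, k y * (g y) ^ 2 ∂μ := by
  have h := ENNReal.lintegral_mul_le_Lp_mul_Lq μ (p := 2) (q := 2) Real.HolderConjugate.two_two
    (f := fun y => (k y) ^ (1/2 : ℝ)) (g := fun y => (k y) ^ (1/2 : ℝ) * g y)
    (by fun_prop) (by fun_prop)
  have e1 : ∫⁻ y, k y * g y ∂μ = ∫⁻ y, ((fun y => (k y) ^ (1/2 : ℝ)) *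
      (fun y => (k y) ^ (1/2 : ℝ) * g y)) y ∂μ := by
    apply lintegral_congr
    intro y
    simp only [Pi.mul_apply]
    rw [← mul_assoc, sqrt_mul_self']
  have e2 : ∫⁻ y, ((k y) ^ (1/2 : ℝ)) ^ (2 : ℝ) ∂μ = ∫⁻ y, k y ∂μ := by
    apply lintegral_congr
    intro y
    rw [← ENNReal.rpow_mul]; simp
  have e3 : ∫⁻ y, ((k y) ^ (1/2 : ℝ) * g y) ^ (2 : ℝ) ∂μ = ∫⁻ y, k y * (g y) ^ 2 ∂μ := by
    apply lintegral_congr
    intro y
    rw [ENNReal.mul_rpow_of_nonneg _ _ (by norm_num), ← ENNReal.rpow_mul]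
    norm_num
  rw [e2, e3] at h
  rw [e1]
  calc _ ≤ ((∫⁻ y, k y ∂μ) ^ (1/2 : ℝ) * (∫⁻ y, k y * (g y) ^ 2 ∂μ) ^ (1/2 : ℝ)) ^ 2 := by
        gcongr
    _ = _ := by rw [mul_pow, sqrt_sq', sqrt_sq']

/-- Schur test -/
lemma schur (μ : Measure α) [SFinite μ] (k : α → α → ℝ≥0∞) (hk : Measurable (Function.uncurry k))
    (C : ℝ≥0∞) (h1 : ∀ x, ∫⁻ y, k x y ∂μ ≤ C) (h2 : ∀ y, ∫⁻ x, k x y ∂μ ≤ C)
    (g : α → ℝ≥0∞) (hg : AEMeasurable g μ) :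
    ∫⁻ x, (∫⁻ y, k x y * g y ∂μ) ^ 2 ∂μ ≤ C ^ 2 * ∫⁻ y, (g y) ^ 2 ∂μ := by
  wlog hg' : Measurable g with H
  · have e1 : ∀ x, ∫⁻ y, k x y * g y ∂μ = ∫⁻ y, k x y * hg.mk g y ∂μ := by
      intro x
      apply lintegral_congr_ae
      filter_upwards [hg.ae_eq_mk] with y hy
      rw [hy]
    have e2 : ∫⁻ y, (g y) ^ 2 ∂μ = ∫⁻ y, (hg.mk g y) ^ 2 ∂μ := by
      apply lintegral_congr_ae
      filter_upwards [hg.ae_eq_mk] with y hy
      rw [hy]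
    simp_rw [e1]
    rw [e2]
    exact H μ k hk C h1 h2 (hg.mk g) hg.measurable_mk.aemeasurable hg.measurable_mk
  have hkx : ∀ x, Measurable (k x) := fun x => hk.of_uncurry_left
  calc ∫⁻ x, (∫⁻ y, k x y * g y ∂μ) ^ 2 ∂μ
      ≤ ∫⁻ x, C * ∫⁻ y, k x y * (g y) ^ 2 ∂μ ∂μ := by
        apply lintegral_mono
        intro x
        exact (cs μ (k x) g (hkx x) hg).trans (mul_le_mul_left (h1 x) _)
    _ = C * ∫⁻ x, ∫⁻ y, k x y * (g y) ^ 2 ∂μ ∂μ := by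
        rw [lintegral_const_mul]
        exact Measurable.lintegral_prod_right' (f := fun p : α × α => k p.1 p.2 * (g p.2) ^ 2)
          (hk.mul ((hg'.comp measurable_snd).pow_const 2))
    _ = C * ∫⁻ y, ∫⁻ x, k x y * (g y) ^ 2 ∂μ ∂μ := by
        rw [lintegral_lintegral_swap]
        exact (hk.mul ((hg'.comp measurable_snd).pow_const 2)).aemeasurable
    _ ≤ C * ∫⁻ y, C * (g y) ^ 2 ∂μ := by
        gcongr with y
        rw [lintegral_mul_const _ hk.of_uncurry_right]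
        gcongr
        exact h2 y
    _ = C ^ 2 * ∫⁻ y, (g y) ^ 2 ∂μ := by
        rw [lintegral_const_mul _ (hg'.pow_const 2)]
        ring

end Pool.Agent.Helper49.ND.Schur
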