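import Mathlib
import Pool.Agent.Helper49.ND.Radial
import Pool.Agent.Helper49.ND.Ker
import Pool.Agent.Helper49.ND.Schur

set_option autoImplicit false
open MeasureTheory Filter Topology Set Metric
open scoped NNReal ENNReal
open Pool.Agent.Helper49.ND.Defs Pool.Agent.Helper49.ND.Radial Pool.Agent.Helper49.ND.Ker
open Pool.Agent.Helper49.ND.Schur

namespace Pool.Agent.Helper49.ND.Meas

variable {d : ℕ}

/-- density -/
noncomputable def hd (x : E d) : ℝ≥0∞ := ENNReal.ofReal (Real.exp (-‖x‖))

lemma hd_meas : Measurable (hd : E d → ℝ≥0∞) := by unfold hd; fun_prop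

lemma hd_le_one (x : E d) : hd x ≤ 1 := by
  unfold hd
  rw [← ENNReal.ofReal_one]
  apply ENNReal.ofReal_le_ofReal
  rw [Real.exp_le_one_iff]
  have := norm_nonneg x
  linarith

/-- the measure -/
noncomputable def mu (d : ℕ) : Measure (E d) := volume.withDensity hd

lemma mu_le : mu d ≤ volume := by
  unfold mu
  calc volume.withDensity hd ≤ (volume : Measure (E d)).withDensity 1 :=
        withDensity_mono (Filter.Eventually.of_forall fun x => hd_le_one x)
    _ = volume := withDensity_one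

lemma lint_mu (f : E d → ℝ≥0∞) (hf : Measurable f) : ∫⁻ x, f x ∂(mu d) = ∫⁻ x, hd x * f x := by
  unfold mu
  rw [lintegral_withDensity_eq_lintegral_mul _ hd_meas hf]
  rfl

lemma lint_mu_set (f : E d → ℝ≥0∞) (hf : Measurable f) (s : Set (E d)) (hs : MeasurableSet s) :
    ∫⁻ x in s, f x ∂(mu d) = ∫⁻ x in s, hd x * f x := by
  unfold mu
  rw [setLIntegral_withDensity_eq_setLIntegral_mul _ hd_meas hf hs]
  rfl

lemma mu_set (s : Set (E d)) (hs : MeasurableSet s) : mu d s = ∫⁻ x in s, hd x := by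
  unfold mu
  rw [withDensity_apply _ hs]

instance : IsLocallyFiniteMeasure (mu d) := Measure.isLocallyFiniteMeasure_of_le mu_le

instance : SFinite (mu d) := by unfold mu; infer_instance

lemma mu_ball_le (x : E d) {r : ℝ} (hr : 0 < r) : mu d (ball x r) ≤ ENNReal.ofReal (vb d * r ^ d) := by
  refine (mu_le _).trans ?_
  rw [vol_ball x hr, mul_comm]

lemma mu_growth (d : ℕ) : IsGrowthMeasure (mu d) where
  locallyFinite := inferInstance
  growth := ⟨vb d, fun x r hr => mu_ball_le x hr⟩
  upperDoubling := by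
    refine ⟨fun _ r => r ^ d, max (vb d) (2 ^ d), fun x r hr => ⟨by positivity, ?_, ?_⟩⟩
    · refine (mu_ball_le x hr).trans ?_
      apply ENNReal.ofReal_le_ofReal
      gcongr
      exact le_max_left _ _
    · calc r ^ d = 2 ^ d * (r / 2) ^ d := by rw [← mul_pow]; congr 1; ring
        _ ≤ max (vb d) (2 ^ d) * (r / 2) ^ d := by
          gcongr
          exact le_max_right _ _

/-- Hoelder: any function at most `exp (η |x|)` has a small average -/
lemma holder_bound {η : ℝ} (h0 : 0 < η) (h1 : η < 1) (w : E d → ℝ≥0∞) (hwm : Measurable w)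
    (hw : ∀ x, w x ≤ ENNReal.ofReal (Real.exp (η * ‖x‖))) (x : E d) {r : ℝ} (hr : 0 < r) :
    ∫⁻ y in ball x r, w y ∂(mu d) ≤
      mu d (ball x r) ^ (1 - η) * ENNReal.ofReal (r ^ ((d : ℝ) * η)) * ENNReal.ofReal (vb d ^ η) := by
  rw [lint_mu_set w hwm _ measurableSet_ball]
  have e1 : ∀ y : E d, hd y * w y ≤ (hd y) ^ (1 - η) * 1 := by
    intro y
    calc hd y * w y ≤ hd y * ENNReal.ofReal (Real.exp (η * ‖y‖)) := by gcongr; exact hw y
      _ = (hd y) ^ (1 - η) * 1 := by
        unfold hd
        rw [← ENNReal.ofReal_mul (Real.exp_pos _).le, ENNReal.ofReal_rpow_of_pos (Real.exp_pos _), ← Real.exp_add,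
          ← Real.exp_mul, mul_one]
        congr 2
        ring
  have hpq : Real.HolderConjugate (1 / (1 - η)) (1 / η) := by
    rw [Real.holderConjugate_iff]
    constructor
    · rw [lt_div_iff₀ (by linarith)]; linarith
    · simp
  have h := ENNReal.lintegral_mul_le_Lp_mul_Lq (volume.restrict (ball x r)) hpq
    (f := fun y => (hd y) ^ (1 - η)) (g := fun _ => 1) ((hd_meas.pow_const _).aemeasurable) aemeasurable_const
  calc ∫⁻ y in ball x r, hd y * w y ≤ ∫⁻ y in ball x r, (hd y) ^ (1 - η) * 1 := lintegral_mono e1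
    _ ≤ _ := h
    _ = _ := by
      have h3 : (1 - η) ≠ 0 := by linarith
      have e2 : ∀ y : E d, ((hd y) ^ (1 - η)) ^ (1 / (1 - η)) = hd y := by
        intro y
        rw [← ENNReal.rpow_mul]
        have : (1 - η) * (1 / (1 - η)) = 1 := by field_simp
        rw [this, ENNReal.rpow_one]
      simp_rw [e2]
      rw [← mu_set _ measurableSet_ball]
      simp only [one_div, inv_inv, ENNReal.one_rpow, lintegral_const, MeasurableSet.univ, Measure.restrict_apply,
        univ_inter, one_mul]
      rw [vol_ball x hr, mul_assoc]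
      congr 1
      rw [ENNReal.ofReal_rpow_of_nonneg (by have := vb_pos d; positivity) h0.le, ← ENNReal.ofReal_mul (by positivity),
        Real.mul_rpow (by positivity) (vb_pos d).le]
      congr 2
      rw [← Real.rpow_natCast, ← Real.rpow_mul hr.le]

lemma mu_ball_pos (x : E d) {r : ℝ} (hr : 0 < r) : mu d (ball x r) ≠ 0 := by
  unfold mu
  intro h
  rw [withDensity_apply_eq_zero hd_meas] at h
  have h2 : {x : E d | hd x ≠ 0} ∩ ball x r = ball x r := by
    apply inter_eq_right.mpr
    intro y _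
    change hd y ≠ 0
    unfold hd
    rw [Ne, ENNReal.ofReal_eq_zero, not_le]
    exact Real.exp_pos _
  rw [h2] at h
  exact (isOpen_ball.measure_pos volume ⟨x, mem_ball_self hr⟩).ne' h

lemma mu_ball_fin (x : E d) (r : ℝ) : mu d (ball x r) ≠ ⊤ :=
  ((mu_le _).trans_lt measure_ball_lt_top).ne

/-- the characteristic is finite for every weight between `exp (-η |x|)` and `exp (η |x|)` -/
lemma A2char_le {η : ℝ} (h0 : 0 < η) (h1 : η < 1) (w : E d → ℝ) (hwm : Measurable w) 
    (hw1 : ∀ x, w x ≤ Real.exp (η * ‖x‖)) (hw2 : ∀ x, (w x)⁻¹ ≤ Real.exp (η * ‖x‖)) :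
    A2char η (mu d) w ≤ ENNReal.ofReal (vb d ^ η) * ENNReal.ofReal (vb d ^ η) := by
  unfold A2char
  refine iSup_le fun x => iSup_le fun r => iSup_le fun hr => ?_
  have key : ∀ v : E d → ℝ≥0∞, Measurable v → (∀ x, v x ≤ ENNReal.ofReal (Real.exp (η * ‖x‖))) →
      (∫⁻ y in ball x r, v y ∂(mu d)) / (mu d (ball x r) ^ (1 - η) * ENNReal.ofReal (r ^ ((d : ℝ) * η))) ≤
        ENNReal.ofReal (vb d ^ η) := by
    intro v hvm hv
    apply ENNReal.div_le_of_le_mul
    rw [mul_comm]
    exact holder_bound h0 h1 v hvm hv x hr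
  gcongr
  · exact key _ (by fun_prop) fun y => ENNReal.ofReal_le_ofReal (hw1 y)
  · exact key _ (by fun_prop) fun y => ENNReal.ofReal_le_ofReal (hw2 y)

end Pool.Agent.Helper49.ND.Meas
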