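import Mathlib
import Pool.Agent.Helper49.ND.Meas

set_option autoImplicit false
open MeasureTheory Filter Topology Set Metric
open scoped NNReal ENNReal
open Pool.Agent.Helper49.ND.Defs Pool.Agent.Helper49.ND.Radial Pool.Agent.Helper49.ND.Ker
open Pool.Agent.Helper49.ND.Schur Pool.Agent.Helper49.ND.Meas

namespace Pool.Agent.Helper49.ND.TOp

variable {d : ℕ}

/-- Schur constant -/
noncomputable def CS (d : ℕ) : ℝ := Real.exp 1 * (2 * (d * vb d))

lemma CS_nonneg (d : ℕ) : 0 ≤ CS d := by
  unfold CS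
  have := vb_pos d
  positivity

lemma log_bound (x : E d) : Real.log ((1 + rho x) / rho x) ≤ 2 * Real.exp ‖x‖ := by
  have h1 := rho_pos x
  have h2 := rho_le_one x
  rw [Real.log_div (by positivity) h1.ne']
  have h3 : Real.log (rho x) = - Real.exp ‖x‖ := by
    unfold rho prof; rw [Real.log_exp]
  rw [h3]
  have h4 : Real.log (1 + rho x) ≤ rho x := by
    have := Real.log_le_sub_one_of_pos (show 0 < 1 + rho x by positivity)
    linarith
  have h5 : 1 ≤ Real.exp ‖x‖ := Real.one_le_exp (norm_nonneg x)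
  linarith

lemma kR_cont_right (x : E d) : Continuous (fun y : E d => kR x y) := by
  have h : Continuous (fun y : E d => (x, y)) := by fun_prop
  have h2 := (kR_cont (d := d)).comp h
  exact h2

lemma K_cont_right (x : E d) : Continuous (fun y : E d => K x y) := by
  unfold K
  exact Complex.continuous_ofReal.comp (kR_cont_right x)

lemma trans_ball (x : E d) (R : ℝ) (g : E d → ℝ≥0∞) :
    ∫⁻ y in ball x R, g (y - x) = ∫⁻ z in ball (0 : E d) R, g z := by
  rw [← lintegral_indicator measurableSet_ball, ← lintegral_indicator measurableSet_ball,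
    ← lintegral_sub_right_eq_self ((ball (0 : E d) R).indicator g) x]
  congr 1
  funext y
  by_cases hy : y ∈ ball x R
  · rw [indicator_of_mem hy, indicator_of_mem (show y - x ∈ ball (0 : E d) R by
      rw [mem_ball_zero_iff]; rwa [mem_ball_iff_norm] at hy)]
  · rw [indicator_of_notMem hy, indicator_of_notMem (show y - x ∉ ball (0 : E d) R by
      rw [mem_ball_zero_iff]; rwa [mem_ball_iff_norm] at hy)]

lemma schur_bound (hd1 : 1 ≤ d) (x : E d) :
    ∫⁻ y, ENNReal.ofReal (kR x y) ∂(mu d) ≤ ENNReal.ofReal (CS d) := by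
  have hmk : Measurable (fun y => ENNReal.ofReal (kR x y)) := by
    exact (kR_cont_right x).measurable.ennreal_ofReal
  rw [lint_mu _ hmk]
  have h1 : ∀ y : E d, hd y * ENNReal.ofReal (kR x y) ≤
      (ball x 1).indicator (fun y => ENNReal.ofReal (Real.exp 1 * Real.exp (-‖x‖)) *
        ENNReal.ofReal ((‖y - x‖ + rho x) ^ d)⁻¹) y := by
    intro y
    by_cases hy : y ∈ ball x 1
    · rw [indicator_of_mem hy]
      rw [mem_ball_iff_norm] at hy
      gcongr
      · unfold hd
        apply ENNReal.ofReal_le_ofReal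
        rw [← Real.exp_add]
        apply Real.exp_le_exp.mpr
        have := norm_sub_norm_le x y
        rw [norm_sub_rev] at this
        linarith
      · refine (kR_le x y).trans ?_
        have h1 := rho_pos x
        have h2 := rho_pos y
        have h3 := norm_nonneg (y - x)
        rw [norm_sub_rev x y]
        apply inv_anti₀ (by positivity)
        apply pow_le_pow_left₀ (by positivity)
        linarith
    · rw [indicator_of_notMem hy]
      rw [mem_ball_iff_norm, not_lt] at hy
      rw [kR_zero x y (by rw [norm_sub_rev]; exact hy)]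
      simp
  calc ∫⁻ y, hd y * ENNReal.ofReal (kR x y)
      ≤ ∫⁻ y, (ball x 1).indicator (fun y => ENNReal.ofReal (Real.exp 1 * Real.exp (-‖x‖)) *
        ENNReal.ofReal ((‖y - x‖ + rho x) ^ d)⁻¹) y := lintegral_mono h1
    _ = ∫⁻ y in ball x 1, ENNReal.ofReal (Real.exp 1 * Real.exp (-‖x‖)) *
        ENNReal.ofReal ((‖y - x‖ + rho x) ^ d)⁻¹ := lintegral_indicator measurableSet_ball _
    _ = ENNReal.ofReal (Real.exp 1 * Real.exp (-‖x‖)) *
        ∫⁻ y in ball x 1, ENNReal.ofReal ((‖y - x‖ + rho x) ^ d)⁻¹ := by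
        rw [lintegral_const_mul' _ _ ENNReal.ofReal_ne_top]
    _ = ENNReal.ofReal (Real.exp 1 * Real.exp (-‖x‖)) *
        ∫⁻ z in ball (0 : E d) 1, ENNReal.ofReal ((‖z‖ + rho x) ^ d)⁻¹ := by
        rw [trans_ball x 1 (fun z => ENNReal.ofReal ((‖z‖ + rho x) ^ d)⁻¹)]
    _ ≤ ENNReal.ofReal (Real.exp 1 * Real.exp (-‖x‖)) *
        ENNReal.ofReal (d * vb d * Real.log ((1 + rho x) / rho x)) := by
        gcongr
        exact upper hd1 one_pos (rho_pos x)
    _ ≤ ENNReal.ofReal (CS d) := by
        rw [← ENNReal.ofReal_mul (by positivity)]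
        apply ENNReal.ofReal_le_ofReal
        have hv := vb_pos d
        calc Real.exp 1 * Real.exp (-‖x‖) * (d * vb d * Real.log ((1 + rho x) / rho x))
            ≤ Real.exp 1 * Real.exp (-‖x‖) * (d * vb d * (2 * Real.exp ‖x‖)) := by
              gcongr
              exact log_bound x
          _ = Real.exp 1 * (2 * (d * vb d)) * (Real.exp (-‖x‖) * Real.exp ‖x‖) := by ring
          _ = CS d := by
              rw [← Real.exp_add]; simp [CS]

/-- the operator -/
noncomputable def T (f : E d → ℂ) (x : E d) : ℂ := ∫ y, K x y * f y ∂(mu d)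

lemma K_meas2 : Measurable (Function.uncurry (fun x y : E d => ENNReal.ofReal (kR x y))) := by
  have : Measurable (fun p : E d × E d => kR p.1 p.2) := kR_cont.measurable
  exact this.ennreal_ofReal

lemma K_enorm (x y : E d) : ‖K x y‖ₑ = ENNReal.ofReal (kR x y) := by
  unfold K
  rw [← ofReal_norm, Complex.norm_real, Real.norm_eq_abs, abs_of_nonneg (kR_nonneg x y)]

/-- integrability for every point -/
lemma K_int {f : E d → ℂ} (hf : MemLp f 2 (mu d)) (x : E d) : Integrable (fun y => K x y * f y) (mu d) := by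
  have h1 : Integrable f ((mu d).restrict (ball x 1)) := by
    have : IsFiniteMeasure ((mu d).restrict (ball x 1)) := ⟨by
      rw [Measure.restrict_apply_univ]; exact (mu_ball_fin x 1).lt_top⟩
    exact (hf.restrict (ball x 1)).integrable (by norm_num)
  have hKc : Continuous (fun y : E d => K x y) := K_cont_right x
  have h2 : IntegrableOn (fun y => K x y * f y) (ball x 1) (mu d) := by
    apply h1.bdd_mul (c := (rho x ^ d)⁻¹) hKc.aestronglyMeasurable
    exact Filter.Eventually.of_forall fun y => by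
      unfold K
      rw [Complex.norm_real, Real.norm_eq_abs, abs_of_nonneg (kR_nonneg x y)]
      exact kR_bdd x y
  rw [← integrableOn_iff_integrable_of_support_subset (s := ball x 1)]
  · exact h2
  · intro y hy
    by_contra hcon
    apply hy
    rw [mem_ball_iff_norm, not_lt] at hcon
    have : K x y = 0 := by
      unfold K; rw [kR_zero x y (by rw [norm_sub_rev]; exact hcon)]; simp
    simp only
    rw [this, zero_mul]

lemma T_enorm (f : E d → ℂ) (x : E d) : ‖T f x‖ₑ ≤ ∫⁻ y, ENNReal.ofReal (kR x y) * ‖f y‖ₑ ∂(mu d) := by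
  unfold T
  refine (enorm_integral_le_lintegral_enorm _).trans (le_of_eq ?_)
  apply lintegral_congr
  intro y
  rw [enorm_mul, K_enorm]

lemma T_meas {f : E d → ℂ} (hf : AEStronglyMeasurable f (mu d)) : AEStronglyMeasurable (T f) (mu d) := by
  unfold T
  apply AEStronglyMeasurable.integral_prod_right' (f := fun p : E d × E d => K p.1 p.2 * f p.2)
  apply AEStronglyMeasurable.mul
  · have : Continuous (fun p : E d × E d => K p.1 p.2) := by
      unfold K
      exact Complex.continuous_ofReal.comp kR_cont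
    exact this.aestronglyMeasurable
  · exact hf.comp_snd

lemma eL (f : E d → ℂ) : eLpNorm f 2 (mu d) = (∫⁻ x, ‖f x‖ₑ ^ 2 ∂(mu d)) ^ (1/2 : ℝ) := by
  rw [eLpNorm_eq_lintegral_rpow_enorm_toReal (by norm_num) (by norm_num)]
  simp

lemma T_bound (hd1 : 1 ≤ d) {f : E d → ℂ} (hf : AEStronglyMeasurable f (mu d)) :
    eLpNorm (T f) 2 (mu d) ≤ ENNReal.ofReal (CS d) * eLpNorm f 2 (mu d) := by
  rw [eL, eL]
  have h1 : ∫⁻ x, ‖T f x‖ₑ ^ 2 ∂(mu d) ≤ (ENNReal.ofReal (CS d)) ^ 2 * ∫⁻ x, ‖f x‖ₑ ^ 2 ∂(mu d) := by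
    refine le_trans ?_ (schur (mu d) (fun x y => ENNReal.ofReal (kR x y)) K_meas2 (ENNReal.ofReal (CS d))
      (schur_bound hd1) (fun y => by simp_rw [kR_symm _ y]; exact schur_bound hd1 y) (fun y => ‖f y‖ₑ) hf.enorm)
    apply lintegral_mono
    intro x
    have := T_enorm f x
    simp only
    gcongr
  calc (∫⁻ x, ‖T f x‖ₑ ^ 2 ∂(mu d)) ^ (1/2 : ℝ)
      ≤ ((ENNReal.ofReal (CS d)) ^ 2 * ∫⁻ x, ‖f x‖ₑ ^ 2 ∂(mu d)) ^ (1/2 : ℝ) := by gcongr
    _ = _ := by
      rw [ENNReal.mul_rpow_of_nonneg _ _ (by norm_num), ← ENNReal.rpow_natCast, ← ENNReal.rpow_mul]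
      simp

lemma T_L2 (hd1 : 1 ≤ d) : IsL2Operator (mu d) (T : (E d → ℂ) → E d → ℂ) where
  add := by
    intro f g hf hg
    refine Filter.Eventually.of_forall fun x => ?_
    unfold T
    simp only
    rw [← integral_add (K_int hf x) (K_int hg x)]
    congr 1
    funext y
    ring
  smul := by
    intro c f _
    refine Filter.Eventually.of_forall fun x => ?_
    unfold T
    simp only
    rw [← integral_const_mul]
    congr 1
    funext y
    ring
  bounded := by
    refine ⟨(CS d).toNNReal, fun f hf => ?_⟩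
    have h := T_bound hd1 hf.1
    refine ⟨⟨T_meas hf.1, ?_⟩, h⟩
    exact h.trans_lt (ENNReal.mul_lt_top ENNReal.ofReal_lt_top hf.2)

lemma T_assoc : IsAssociated (mu d) (K : E d → E d → ℂ) T := by
  intro f _ _
  exact Filter.Eventually.of_forall fun x _ => rfl

end Pool.Agent.Helper49.ND.TOp
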