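import Mathlib
import Pool.Agent.Helper49.ND.TOp

set_option autoImplicit false
open MeasureTheory Filter Topology Set Metric
open scoped NNReal ENNReal
open Pool.Agent.Helper49.ND.Defs Pool.Agent.Helper49.ND.Radial Pool.Agent.Helper49.ND.Ker
open Pool.Agent.Helper49.ND.Schur Pool.Agent.Helper49.ND.Meas Pool.Agent.Helper49.ND.TOp

namespace Pool.Agent.Helper49.ND.Low

variable {d : ℕ}

/-- first coordinate index -/
def i0 (hd1 : 1 ≤ d) : Fin d := ⟨0, hd1⟩

/-- first basis vector -/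
noncomputable def e0 (hd1 : 1 ≤ d) : E d := EuclideanSpace.single (i0 hd1) 1

lemma e0_norm (hd1 : 1 ≤ d) : ‖e0 hd1‖ = 1 := by unfold e0; simp

/-- period -/
noncomputable def pn (n : ℕ) : ℝ := Real.exp (-Real.exp (4 * n - 1))

lemma pn_pos (n : ℕ) : 0 < pn n := Real.exp_pos _

/-- centre -/
noncomputable def cn (hd1 : 1 ≤ d) (n : ℕ) : E d := (4 * (n:ℝ)) • e0 hd1

lemma cn_norm (hd1 : 1 ≤ d) (n : ℕ) : ‖cn hd1 n‖ = 4 * n := by
  unfold cn
  rw [norm_smul, e0_norm, mul_one, Real.norm_eq_abs, abs_of_nonneg (by positivity)]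

/-- stripes -/
def Lo (hd1 : 1 ≤ d) (n : ℕ) : Set (E d) := {y | Int.fract (y (i0 hd1) / pn n) < 1/2}

lemma Lo_meas (hd1 : 1 ≤ d) (n : ℕ) : MeasurableSet (Lo hd1 n) := by
  unfold Lo
  have h1 : Measurable (fun y : E d => y (i0 hd1)) := by fun_prop
  have h2 : Measurable (fun y : E d => Int.fract (y (i0 hd1) / pn n)) := measurable_fract.comp (h1.div_const _)
  exact measurableSet_lt h2 measurable_const

lemma fract_shift1 {t : ℝ} (h : Int.fract t < 1/2) : Int.fract (t + 1/2) = Int.fract t + 1/2 := by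
  rw [Int.fract_eq_iff]
  have := Int.fract_nonneg t
  refine ⟨by linarith, by linarith, ⌊t⌋, ?_⟩
  have := Int.floor_add_fract t
  linarith

lemma fract_shift2 {t : ℝ} (h : 1/2 ≤ Int.fract t) : Int.fract (t + 1/2) = Int.fract t - 1/2 := by
  rw [Int.fract_eq_iff]
  have := Int.fract_lt_one t
  refine ⟨by linarith, by linarith, ⌊t⌋ + 1, ?_⟩
  have := Int.floor_add_fract t
  push_cast
  linarith

/-- shift vector -/
noncomputable def sh (hd1 : 1 ≤ d) (n : ℕ) : E d := (pn n / 2) • e0 hd1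

lemma sh_norm (hd1 : 1 ≤ d) (n : ℕ) : ‖sh hd1 n‖ = pn n / 2 := by
  unfold sh
  have := pn_pos n
  rw [norm_smul, e0_norm, mul_one, Real.norm_eq_abs, abs_of_nonneg (by positivity)]

lemma sh_coord (hd1 : 1 ≤ d) (n : ℕ) (y : E d) :
    (y + sh hd1 n) (i0 hd1) / pn n = y (i0 hd1) / pn n + 1/2 := by
  have h := (pn_pos n).ne'
  unfold sh e0
  simp
  field_simp

lemma sh_Lo (hd1 : 1 ≤ d) (n : ℕ) (y : E d) : y + sh hd1 n ∈ Lo hd1 n ↔ y ∉ Lo hd1 n := by
  unfold Lo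
  simp only [mem_ofPred_eq]
  rw [sh_coord]
  constructor
  · intro h hcon
    rw [fract_shift1 hcon] at h
    have := Int.fract_nonneg (y (i0 hd1) / pn n)
    linarith
  · intro h
    rw [not_lt] at h
    rw [fract_shift2 h]
    have := Int.fract_lt_one (y (i0 hd1) / pn n)
    linarith

lemma ball_shift (hd1 : 1 ≤ d) (n : ℕ) (hn : pn n ≤ 1/16) (x y : E d) (hy : y ∈ ball x (1/4)) :
    y + sh hd1 n ∈ ball x (1/2) := by
  rw [mem_ball_iff_norm] at *
  have h1 : y + sh hd1 n - x = (y - x) + sh hd1 n := by abel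
  rw [h1]
  have := norm_add_le (y - x) (sh hd1 n)
  rw [sh_norm] at this
  have := pn_pos n
  linarith

/-- radial test function -/
noncomputable def gg (n : ℕ) (x y : E d) : ℝ≥0∞ := ENNReal.ofReal ((‖y - x‖ + 2 * pn n) ^ d)⁻¹

lemma gg_meas (n : ℕ) (x : E d) : Measurable (gg n x) := by unfold gg; fun_prop

lemma gg_shift (hd1 : 1 ≤ d) (n : ℕ) (x y : E d) : gg n x y ≤ 2 ^ d * gg n x (y + sh hd1 n) := by
  unfold gg
  have hp := pn_pos n
  have h0 := norm_nonneg (y - x)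
  have h00 := norm_nonneg (y + sh hd1 n - x)
  have h2 : (2 : ℝ≥0∞) ^ d = ENNReal.ofReal (2 ^ d) := by
    rw [ENNReal.ofReal_pow (by norm_num)]; simp
  rw [h2, ← ENNReal.ofReal_mul (by positivity)]
  apply ENNReal.ofReal_le_ofReal
  have h1 : ‖y + sh hd1 n - x‖ ≤ ‖y - x‖ + pn n / 2 := by
    have h1 : y + sh hd1 n - x = (y - x) + sh hd1 n := by abel
    rw [h1]
    have := norm_add_le (y - x) (sh hd1 n)
    rwa [sh_norm] at this
  calc ((‖y - x‖ + 2 * pn n) ^ d)⁻¹ = 2 ^ d * ((2 * (‖y - x‖ + 2 * pn n)) ^ d)⁻¹ := by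
        rw [mul_pow, mul_inv, ← mul_assoc, mul_inv_cancel₀ (by positivity), one_mul]
    _ ≤ 2 ^ d * ((‖y + sh hd1 n - x‖ + 2 * pn n) ^ d)⁻¹ := by
        apply mul_le_mul_of_nonneg_left _ (by positivity)
        apply inv_anti₀ (by positivity)
        apply pow_le_pow_left₀ (by positivity)
        linarith

lemma half1 (hd1 : 1 ≤ d) (n : ℕ) (hn : pn n ≤ 1/16) (x : E d) :
    ∫⁻ y in ball x (1/4) ∩ Lo hd1 n, gg n x y ≤ 2 ^ d * ∫⁻ y in ball x (1/2) ∩ (Lo hd1 n)ᶜ, gg n x y := by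
  have hL := Lo_meas hd1 n
  rw [← lintegral_indicator (measurableSet_ball.inter hL), ← lintegral_indicator (measurableSet_ball.inter hL.compl),
    ← lintegral_add_right_eq_self ((ball x (1/2) ∩ (Lo hd1 n)ᶜ).indicator (gg n x)) (sh hd1 n),
    ← lintegral_const_mul' _ _ (by finiteness)]
  apply lintegral_mono
  intro y
  by_cases hy : y ∈ ball x (1/4) ∩ Lo hd1 n
  · rw [indicator_of_mem hy]
    simp only
    rw [indicator_of_mem]
    · exact gg_shift hd1 n x y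
    · refine ⟨ball_shift hd1 n hn x y hy.1, ?_⟩
      rw [mem_compl_iff, sh_Lo, not_not]
      exact hy.2
  · rw [indicator_of_notMem hy]
    exact zero_le

lemma half2 (hd1 : 1 ≤ d) (n : ℕ) (hn : pn n ≤ 1/16) (x : E d) :
    (volume : Measure (E d)) (ball x (1/4) ∩ (Lo hd1 n)ᶜ) ≤ volume (ball x (1/2) ∩ Lo hd1 n) := by
  have hL := Lo_meas hd1 n
  rw [← lintegral_indicator_one (measurableSet_ball.inter hL), ← lintegral_indicator_one (measurableSet_ball.inter hL.compl),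
    ← lintegral_add_right_eq_self ((ball x (1/2) ∩ Lo hd1 n).indicator 1) (sh hd1 n)]
  apply lintegral_mono
  intro y
  by_cases hy : y ∈ ball x (1/4) ∩ (Lo hd1 n)ᶜ
  · rw [indicator_of_mem hy]
    simp only
    rw [indicator_of_mem]
    · simp
    · refine ⟨ball_shift hd1 n hn x y hy.1, ?_⟩
      rw [sh_Lo]
      exact hy.2
  · rw [indicator_of_notMem hy]
    exact zero_le

lemma vol_half (hd1 : 1 ≤ d) (n : ℕ) (hn : pn n ≤ 1/16) (x : E d) :
    ENNReal.ofReal ((1/4) ^ d * vb d) ≤ 2 * (volume : Measure (E d)) (ball x (1/2) ∩ Lo hd1 n) := by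
  rw [← vol_ball x (by norm_num)]
  have hL := Lo_meas hd1 n
  calc (volume : Measure (E d)) (ball x (1/4))
      = volume (ball x (1/4) ∩ Lo hd1 n) + volume (ball x (1/4) ∩ (Lo hd1 n)ᶜ) := by
        rw [← measure_inter_add_sdiff (ball x (1/4)) hL]; rfl
    _ ≤ volume (ball x (1/2) ∩ Lo hd1 n) + volume (ball x (1/2) ∩ Lo hd1 n) := by
        exact add_le_add (measure_mono (inter_subset_inter_left _ (ball_subset_ball (by norm_num)))) (half2 hd1 n hn x)
    _ = _ := by ring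

lemma gg_lower (hd1 : 1 ≤ d) (n : ℕ) (hn : pn n ≤ 1/16) (x : E d) :
    ENNReal.ofReal (d * vb d * (((2:ℝ) ^ d)⁻¹ * Real.log ((1/4) / (2 * pn n)))) ≤
      (2 ^ d + 1) * ∫⁻ y in ball x (1/2) ∩ (Lo hd1 n)ᶜ, gg n x y := by
  have hL := Lo_meas hd1 n
  have h1 := lower (d := d) hd1 (R := 1/4) (ρ := 2 * pn n) (by have := pn_pos n; positivity) (by linarith)
  have h2 : ∫⁻ y in ball x (1/4), gg n x y = ∫⁻ z in ball (0 : E d) (1/4), ENNReal.ofReal ((‖z‖ + 2 * pn n) ^ d)⁻¹ :=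
    trans_ball x (1/4) (fun z => ENNReal.ofReal ((‖z‖ + 2 * pn n) ^ d)⁻¹)
  rw [← h2] at h1
  refine h1.trans ?_
  rw [← lintegral_inter_add_sdiff _ _ hL]
  calc (∫⁻ y in ball x (1/4) ∩ Lo hd1 n, gg n x y) + (∫⁻ y in ball x (1/4) \ Lo hd1 n, gg n x y)
      ≤ 2 ^ d * (∫⁻ y in ball x (1/2) ∩ (Lo hd1 n)ᶜ, gg n x y) + ∫⁻ y in ball x (1/2) ∩ (Lo hd1 n)ᶜ, gg n x y := by
        apply add_le_add (half1 hd1 n hn x)
        apply lintegral_mono_set
        intro y hy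
        exact ⟨ball_subset_ball (by norm_num) hy.1, hy.2⟩
    _ = _ := by ring

end Pool.Agent.Helper49.ND.Low
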