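import Mathlib
import Pool.Agent.Helper49.ND.Low

set_option autoImplicit false
open MeasureTheory Filter Topology Set Metric
open scoped NNReal ENNReal
open Pool.Agent.Helper49.ND.Defs Pool.Agent.Helper49.ND.Radial Pool.Agent.Helper49.ND.Ker
open Pool.Agent.Helper49.ND.Schur Pool.Agent.Helper49.ND.Meas Pool.Agent.Helper49.ND.TOp
open Pool.Agent.Helper49.ND.Low

namespace Pool.Agent.Helper49.ND.Fin

variable {d : ℕ}

lemma norm_lo (hd1 : 1 ≤ d) (n : ℕ) {x : E d} (hx : x ∈ ball (cn hd1 n) 1) : 4 * (n:ℝ) - 1 ≤ ‖x‖ := by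
  rw [mem_ball_iff_norm] at hx
  have h1 := norm_sub_norm_le (cn hd1 n) x
  rw [norm_sub_rev, cn_norm] at h1
  linarith

lemma norm_up (hd1 : 1 ≤ d) (n : ℕ) {x : E d} (hx : x ∈ ball (cn hd1 n) 1) : ‖x‖ ≤ 4 * (n:ℝ) + 1 := by
  rw [mem_ball_iff_norm] at hx
  have h1 := norm_sub_norm_le x (cn hd1 n)
  rw [cn_norm] at h1
  linarith

lemma rho_le_pn (hd1 : 1 ≤ d) (n : ℕ) {x : E d} (hx : x ∈ ball (cn hd1 n) 1) : rho x ≤ pn n := by
  unfold rho prof pn
  apply Real.exp_le_exp.mpr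
  apply neg_le_neg
  exact Real.exp_le_exp.mpr (norm_lo hd1 n hx)

lemma kR_lower (hd1 : 1 ≤ d) (n : ℕ) {x y : E d} (hx : x ∈ ball (cn hd1 n) 1) (hy : y ∈ ball (cn hd1 n) 1) :
    gg n x y ≤ ENNReal.ofReal (kR x y) + 1 := by
  unfold gg
  rw [← ENNReal.ofReal_one, ← ENNReal.ofReal_add (kR_nonneg x y) zero_le_one]
  apply ENNReal.ofReal_le_ofReal
  have h1 : ((‖x - y‖ + rho x + rho y) ^ d)⁻¹ - 1 ≤ kR x y := le_max_right _ _
  have h2 : ((‖y - x‖ + 2 * pn n) ^ d)⁻¹ ≤ ((‖x - y‖ + rho x + rho y) ^ d)⁻¹ := by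
    have := den_pos x y
    apply inv_anti₀ (by positivity)
    apply pow_le_pow_left₀ this.le
    have a1 := rho_le_pn hd1 n hx
    have a2 := rho_le_pn hd1 n hy
    rw [norm_sub_rev y x]
    linarith
  linarith

/-- test set -/
def Fn (hd1 : 1 ≤ d) (n : ℕ) : Set (E d) := ball (cn hd1 n) 1 ∩ (Lo hd1 n)ᶜ

lemma Fn_meas (hd1 : 1 ≤ d) (n : ℕ) : MeasurableSet (Fn hd1 n) := measurableSet_ball.inter (Lo_meas hd1 n).compl

noncomputable def kap (d : ℕ) : ℝ := d * vb d * ((2:ℝ) ^ d)⁻¹ / (2 ^ d + 1)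

lemma kap_pos (hd1 : 1 ≤ d) : 0 < kap d := by
  unfold kap
  have := vb_pos d
  have : (0:ℝ) < d := by exact_mod_cast hd1
  positivity

lemma vol_lower (hd1 : 1 ≤ d) (n : ℕ) (hn : pn n ≤ 1/16) {x : E d} (hx : x ∈ ball (cn hd1 n) (1/2)) :
    ENNReal.ofReal (d * vb d * (((2:ℝ) ^ d)⁻¹ * Real.log ((1/4) / (2 * pn n)))) ≤
      (2 ^ d + 1) * ((∫⁻ y in Fn hd1 n, ENNReal.ofReal (kR x y)) + ENNReal.ofReal (vb d)) := by
  refine (gg_lower hd1 n hn x).trans ?_
  apply mul_le_mul_right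
  have hsub : ball x (1/2) ⊆ ball (cn hd1 n) 1 := by
    intro y hy
    rw [mem_ball] at *
    have := dist_triangle y x (cn hd1 n)
    linarith
  have hx1 : x ∈ ball (cn hd1 n) 1 := ball_subset_ball (by norm_num) hx
  have hmk : Measurable (fun y => ENNReal.ofReal (kR x y)) := (kR_cont_right x).measurable.ennreal_ofReal
  calc ∫⁻ y in ball x (1/2) ∩ (Lo hd1 n)ᶜ, gg n x y
      ≤ ∫⁻ y in ball x (1/2) ∩ (Lo hd1 n)ᶜ, (ENNReal.ofReal (kR x y) + 1) := by
        apply setLIntegral_mono_ae (hmk.add_const 1).aemeasurable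
        exact Filter.Eventually.of_forall fun y hy => kR_lower hd1 n hx1 (hsub hy.1)
    _ = (∫⁻ y in ball x (1/2) ∩ (Lo hd1 n)ᶜ, ENNReal.ofReal (kR x y)) +
        (volume : Measure (E d)) (ball x (1/2) ∩ (Lo hd1 n)ᶜ) := by
        rw [lintegral_add_left hmk]
        simp
    _ ≤ (∫⁻ y in Fn hd1 n, ENNReal.ofReal (kR x y)) + ENNReal.ofReal (vb d) := by
        apply add_le_add
        · exact lintegral_mono_set fun y hy => ⟨hsub hy.1, hy.2⟩
        · refine (measure_mono inter_subset_left).trans ?_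
          rw [vol_ball x (by norm_num)]
          apply ENNReal.ofReal_le_ofReal
          have : ((1:ℝ)/2) ^ d ≤ 1 := pow_le_one₀ (by norm_num) (by norm_num)
          have := vb_pos d
          nlinarith

lemma log_pn (n : ℕ) : Real.log ((1/4) / (2 * pn n)) = Real.exp (4 * n - 1) - Real.log 8 := by
  have h := pn_pos n
  have e : (1/4 : ℝ) / (2 * pn n) = 1 / (8 * pn n) := by field_simp; norm_num
  rw [e, one_div, Real.log_inv, Real.log_mul (by norm_num) h.ne']
  unfold pn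
  rw [Real.log_exp]
  ring

/-- lower bound for the operator, in the measure mu -/
lemma mu_lower (hd1 : 1 ≤ d) (n : ℕ) (hn : pn n ≤ 1/16) {x : E d} (hx : x ∈ ball (cn hd1 n) (1/2)) :
    ENNReal.ofReal (kap d * Real.exp (-2) - Real.exp (-(4 * n + 1)) * (kap d * Real.log 8 + vb d)) ≤
      ∫⁻ y in Fn hd1 n, ENNReal.ofReal (kR x y) ∂(mu d) := by
  have h1 := vol_lower hd1 n hn hx
  rw [log_pn] at h1
  have hmk : Measurable (fun y => ENNReal.ofReal (kR x y)) := (kR_cont_right x).measurable.ennreal_ofReal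
  rw [lint_mu_set _ hmk _ (Fn_meas hd1 n)]
  have h2 : ENNReal.ofReal (Real.exp (-(4 * n + 1))) * ∫⁻ y in Fn hd1 n, ENNReal.ofReal (kR x y) ≤
      ∫⁻ y in Fn hd1 n, hd y * ENNReal.ofReal (kR x y) := by
    rw [← lintegral_const_mul _ hmk]
    apply setLIntegral_mono_ae (by have := hd_meas (d := d); fun_prop)
    refine Filter.Eventually.of_forall fun y hy => ?_
    apply mul_le_mul_left
    unfold hd
    apply ENNReal.ofReal_le_ofReal
    apply Real.exp_le_exp.mpr
    have := norm_up hd1 n hy.1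
    linarith
  refine le_trans ?_ h2
  generalize (∫⁻ y in Fn hd1 n, ENNReal.ofReal (kR x y)) = I at h1
  by_cases hI : I = ⊤
  · rw [hI, ENNReal.mul_top]
    · exact le_top
    · rw [Ne, ENNReal.ofReal_eq_zero, not_le]
      exact Real.exp_pos _
  · obtain ⟨i, hi0, rfl⟩ : ∃ i : ℝ, 0 ≤ i ∧ I = ENNReal.ofReal i :=
      ⟨I.toReal, ENNReal.toReal_nonneg, (ENNReal.ofReal_toReal hI).symm⟩
    have hv := vb_pos d
    have e1 : ((2 : ℝ≥0∞) ^ d + 1) = ENNReal.ofReal (2 ^ d + 1) := by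
      rw [ENNReal.ofReal_add (by positivity) (by norm_num), ENNReal.ofReal_pow (by norm_num)]; simp
    rw [e1, ← ENNReal.ofReal_add hi0 hv.le, ← ENNReal.ofReal_mul (by positivity),
      ENNReal.ofReal_le_ofReal_iff (by positivity)] at h1
    rw [← ENNReal.ofReal_mul (Real.exp_pos _).le]
    apply ENNReal.ofReal_le_ofReal
    have h3 : kap d * (Real.exp (4 * n - 1) - Real.log 8) - vb d ≤ i := by
      unfold kap
      rw [sub_le_iff_le_add, div_mul_eq_mul_div, div_le_iff₀ (by positivity)]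
      linarith
    have h4 : Real.exp (-2) = Real.exp (-(4 * n + 1)) * Real.exp (4 * n - 1) := by
      rw [← Real.exp_add]; congr 1; ring
    have h5 : 0 < Real.exp (-(4 * (n:ℝ) + 1)) := Real.exp_pos _
    calc kap d * Real.exp (-2) - Real.exp (-(4 * n + 1)) * (kap d * Real.log 8 + vb d)
        = Real.exp (-(4 * n + 1)) * (kap d * (Real.exp (4 * n - 1) - Real.log 8) - vb d) := by
          rw [h4]; ring
      _ ≤ Real.exp (-(4 * n + 1)) * i := by gcongr

/-- indicator function of the test set -/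
noncomputable def fn (hd1 : 1 ≤ d) (n : ℕ) : E d → ℂ := (Fn hd1 n).indicator (fun _ => 1)

lemma T_fn (hd1 : 1 ≤ d) (n : ℕ) (x : E d) :
    ‖T (fn hd1 n) x‖ₑ = ∫⁻ y in Fn hd1 n, ENNReal.ofReal (kR x y) ∂(mu d) := by
  have hF := Fn_meas hd1 n
  have hmk : Measurable (fun y => kR x y) := (kR_cont_right x).measurable
  have e1 : T (fn hd1 n) x = ((∫ y, (Fn hd1 n).indicator (fun y => kR x y) y ∂(mu d) : ℝ) : ℂ) := by
    unfold T
    rw [← integral_complex_ofReal]
    congr 1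
    funext y
    unfold fn K
    by_cases hy : y ∈ Fn hd1 n
    · rw [indicator_of_mem hy, indicator_of_mem hy, mul_one]
    · rw [indicator_of_notMem hy, indicator_of_notMem hy]; simp
  rw [e1, integral_indicator hF, ← ofReal_norm, Complex.norm_real, Real.norm_eq_abs,
    abs_of_nonneg (integral_nonneg fun y => kR_nonneg x y), ofReal_integral_eq_lintegral_ofReal]
  · have hfin : IsFiniteMeasure ((mu d).restrict (Fn hd1 n)) := ⟨by
      rw [Measure.restrict_apply_univ]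
      exact (measure_mono inter_subset_left).trans_lt (mu_ball_fin _ _).lt_top⟩
    apply Integrable.of_bound hmk.aestronglyMeasurable ((rho x ^ d)⁻¹)
    exact Filter.Eventually.of_forall fun y => by
      rw [Real.norm_eq_abs, abs_of_nonneg (kR_nonneg x y)]
      exact kR_bdd x y
  · exact Filter.Eventually.of_forall fun y => kR_nonneg x y

/-- the set where the weight is large -/
def Es (hd1 : 1 ≤ d) : Set (E d) := ⋃ n : ℕ, ball (cn hd1 n) 1 ∩ Lo hd1 n

lemma Es_meas (hd1 : 1 ≤ d) : MeasurableSet (Es hd1) :=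
  MeasurableSet.iUnion fun n => measurableSet_ball.inter (Lo_meas hd1 n)

lemma ball_disj (hd1 : 1 ≤ d) {n m : ℕ} {x : E d} (h1 : x ∈ ball (cn hd1 n) 1) (h2 : x ∈ ball (cn hd1 m) 1) :
    n = m := by
  have a1 := norm_lo hd1 n h1
  have a2 := norm_up hd1 n h1
  have a3 := norm_lo hd1 m h2
  have a4 := norm_up hd1 m h2
  have b1 : (n:ℝ) < m + 1 := by linarith
  have b2 : (m:ℝ) < n + 1 := by linarith
  have c1 : n < m + 1 := by exact_mod_cast b1
  have c2 : m < n + 1 := by exact_mod_cast b2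
  omega

lemma mem_Es (hd1 : 1 ≤ d) {n : ℕ} {x : E d} (h1 : x ∈ ball (cn hd1 n) 1) : x ∈ Es hd1 ↔ x ∈ Lo hd1 n := by
  unfold Es
  rw [mem_iUnion]
  constructor
  · rintro ⟨m, h2, h3⟩
    have := ball_disj hd1 h1 h2
    subst this
    exact h3
  · intro h2
    exact ⟨n, h1, h2⟩

open Classical in
/-- the weight -/
noncomputable def wt (hd1 : 1 ≤ d) (η : ℝ) (x : E d) : ℝ :=
  if x ∈ Es hd1 then Real.exp (η * ‖x‖) else Real.exp (-(η * ‖x‖))

lemma wt_pos (hd1 : 1 ≤ d) (η : ℝ) (x : E d) : 0 < wt hd1 η x := by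
  unfold wt; split_ifs <;> exact Real.exp_pos _

lemma wt_meas (hd1 : 1 ≤ d) (η : ℝ) : Measurable (wt hd1 η) := by
  unfold wt
  exact Measurable.ite (Es_meas hd1) (by fun_prop) (by fun_prop)

lemma wt_le (hd1 : 1 ≤ d) {η : ℝ} (h0 : 0 < η) (x : E d) : wt hd1 η x ≤ Real.exp (η * ‖x‖) := by
  unfold wt
  have := norm_nonneg x
  split_ifs
  · exact le_rfl
  · apply Real.exp_le_exp.mpr
    have : 0 ≤ η * ‖x‖ := by positivity
    linarith

lemma wt_inv_le (hd1 : 1 ≤ d) {η : ℝ} (h0 : 0 < η) (x : E d) : (wt hd1 η x)⁻¹ ≤ Real.exp (η * ‖x‖) := by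
  unfold wt
  have := norm_nonneg x
  split_ifs
  · rw [← Real.exp_neg]
    apply Real.exp_le_exp.mpr
    have : 0 ≤ η * ‖x‖ := by positivity
    linarith
  · rw [← Real.exp_neg, neg_neg]

lemma wt_weight (hd1 : 1 ≤ d) {η : ℝ} (h0 : 0 < η) : IsWeight (mu d) (wt hd1 η) where
  measurable := wt_meas hd1 η
  pos := Filter.Eventually.of_forall fun x => wt_pos hd1 η x
  locInt := by
    have hc : LocallyIntegrable (fun x : E d => Real.exp (η * ‖x‖)) (mu d) := by
      apply Continuous.locallyIntegrable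
      fun_prop
    apply hc.mono (wt_meas hd1 η).aestronglyMeasurable
    exact Filter.Eventually.of_forall fun x => by
      rw [Real.norm_eq_abs, Real.norm_eq_abs, abs_of_pos (wt_pos hd1 η x), abs_of_pos (Real.exp_pos _)]
      exact wt_le hd1 h0 x
  locIntInv := by
    have hc : LocallyIntegrable (fun x : E d => Real.exp (η * ‖x‖)) (mu d) := by
      apply Continuous.locallyIntegrable
      fun_prop
    apply hc.mono (wt_meas hd1 η).inv.aestronglyMeasurable
    exact Filter.Eventually.of_forall fun x => by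
      rw [Real.norm_eq_abs, Real.norm_eq_abs, Pi.inv_apply, abs_of_pos (inv_pos.mpr (wt_pos hd1 η x)),
        abs_of_pos (Real.exp_pos _)]
      exact wt_inv_le hd1 h0 x

end Pool.Agent.Helper49.ND.Fin
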