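import Mathlib
import Pool.Agent.Helper49.ND.Fin

set_option autoImplicit false
open MeasureTheory Filter Topology Set Metric
open scoped NNReal ENNReal
open Pool.Agent.Helper49.ND.Defs Pool.Agent.Helper49.ND.Radial Pool.Agent.Helper49.ND.Ker
open Pool.Agent.Helper49.ND.Schur Pool.Agent.Helper49.ND.Meas Pool.Agent.Helper49.ND.TOp
open Pool.Agent.Helper49.ND.Low Pool.Agent.Helper49.ND.Fin

namespace Pool.Agent.Helper49.ND.Main

variable {d : ℕ}

lemma fn_meas (hd1 : 1 ≤ d) (n : ℕ) : Measurable (fn hd1 n) := measurable_const.indicator (Fn_meas hd1 n)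

lemma fn_bdd (hd1 : 1 ≤ d) (n : ℕ) : ∃ M : ℝ, ∀ x, ‖fn hd1 n x‖ ≤ M := by
  refine ⟨1, fun x => ?_⟩
  unfold fn
  by_cases hx : x ∈ Fn hd1 n
  · rw [indicator_of_mem hx]; simp
  · rw [indicator_of_notMem hx]; simp

lemma fn_supp (hd1 : 1 ≤ d) (n : ℕ) : HasCompactSupport (fn hd1 n) := by
  apply HasCompactSupport.of_support_subset_isCompact (isCompact_closedBall (cn hd1 n) 1)
  intro x hx
  by_contra hcon
  apply hx
  unfold fn
  rw [indicator_of_notMem]
  exact fun h => hcon (ball_subset_closedBall h.1)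

lemma rhs_le (hd1 : 1 ≤ d) {η : ℝ} (h0 : 0 < η) (n : ℕ) :
    ∫⁻ x, ‖fn hd1 n x‖ₑ ^ 2 * ENNReal.ofReal (wt hd1 η x) ∂(mu d) ≤
      ENNReal.ofReal (Real.exp (-((1 + η) * (4 * n - 1))) * vb d) := by
  have hF := Fn_meas hd1 n
  have hwm := wt_meas hd1 η
  have e1 : ∫⁻ x, ‖fn hd1 n x‖ₑ ^ 2 * ENNReal.ofReal (wt hd1 η x) ∂(mu d) =
      ∫⁻ x in Fn hd1 n, ENNReal.ofReal (wt hd1 η x) ∂(mu d) := by
    rw [← lintegral_indicator hF]
    apply lintegral_congr
    intro x
    unfold fn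
    by_cases hx : x ∈ Fn hd1 n
    · rw [indicator_of_mem hx, indicator_of_mem hx]; simp
    · rw [indicator_of_notMem hx, indicator_of_notMem hx]; simp
  rw [e1, lint_mu_set _ (by fun_prop) _ hF]
  calc ∫⁻ x in Fn hd1 n, hd x * ENNReal.ofReal (wt hd1 η x)
      ≤ ∫⁻ x in Fn hd1 n, ENNReal.ofReal (Real.exp (-((1 + η) * (4 * n - 1)))) := by
        apply setLIntegral_mono_ae aemeasurable_const
        refine Filter.Eventually.of_forall fun x hx => ?_
        have h1 : wt hd1 η x = Real.exp (-(η * ‖x‖)) := by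
          unfold wt
          rw [if_neg]
          rw [mem_Es hd1 hx.1]
          exact hx.2
        rw [h1]
        unfold hd
        rw [← ENNReal.ofReal_mul (Real.exp_pos _).le, ← Real.exp_add]
        apply ENNReal.ofReal_le_ofReal
        apply Real.exp_le_exp.mpr
        have h2 := norm_lo hd1 n hx.1
        nlinarith
    _ = ENNReal.ofReal (Real.exp (-((1 + η) * (4 * n - 1)))) * volume (Fn hd1 n) := by
        simp
    _ ≤ ENNReal.ofReal (Real.exp (-((1 + η) * (4 * n - 1)))) * ENNReal.ofReal (vb d) := by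
        gcongr
        refine (measure_mono inter_subset_left).trans ?_
        rw [vol_ball _ one_pos]
        simp
    _ = _ := by rw [← ENNReal.ofReal_mul (Real.exp_pos _).le]

lemma lhs_ge (hd1 : 1 ≤ d) {η : ℝ} (h0 : 0 < η) (h1 : η < 1) (n : ℕ) (hn : pn n ≤ 1/16) (c : ℝ) (hc : 0 ≤ c)
    (hlow : ∀ x ∈ ball (cn hd1 n) (1/2), ENNReal.ofReal c ≤ ‖T (fn hd1 n) x‖ₑ) :
    ENNReal.ofReal (c ^ 2 * Real.exp (-((1 - η) * (4 * n + 1))) * ((1/4) ^ d * vb d / 2)) ≤
      ∫⁻ x, ‖T (fn hd1 n) x‖ₑ ^ 2 * ENNReal.ofReal (wt hd1 η x) ∂(mu d) := by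
  have hL := Lo_meas hd1 n
  have hwm := wt_meas hd1 η
  set S : Set (E d) := ball (cn hd1 n) (1/2) ∩ Lo hd1 n with hS
  have hSm : MeasurableSet S := measurableSet_ball.inter hL
  calc ENNReal.ofReal (c ^ 2 * Real.exp (-((1 - η) * (4 * n + 1))) * ((1/4) ^ d * vb d / 2))
      ≤ ENNReal.ofReal (c ^ 2 * Real.exp (-((1 - η) * (4 * n + 1)))) * volume S := by
        rw [ENNReal.ofReal_mul (by positivity)]
        gcongr
        have := vol_half hd1 n hn (cn hd1 n)
        have h2 : ENNReal.ofReal ((1/4) ^ d * vb d / 2) = ENNReal.ofReal ((1/4) ^ d * vb d) / 2 := by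
          rw [ENNReal.ofReal_div_of_pos (by norm_num)]; simp
        rw [h2]
        apply ENNReal.div_le_of_le_mul
        rw [mul_comm _ 2]
        exact this
    _ = ∫⁻ x in S, ENNReal.ofReal (c ^ 2 * Real.exp (-((1 - η) * (4 * n + 1)))) := by simp
    _ ≤ ∫⁻ x in S, hd x * (ENNReal.ofReal c ^ 2 * ENNReal.ofReal (wt hd1 η x)) := by
        apply setLIntegral_mono_ae
        · have := hd_meas (d := d)
          fun_prop
        refine Filter.Eventually.of_forall fun x hx => ?_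
        have hx1 : x ∈ ball (cn hd1 n) 1 := ball_subset_ball (by norm_num) hx.1
        have h2 : wt hd1 η x = Real.exp (η * ‖x‖) := by
          unfold wt
          rw [if_pos]
          rw [mem_Es hd1 hx1]
          exact hx.2
        rw [h2]
        unfold hd
        rw [← ENNReal.ofReal_pow hc, ← ENNReal.ofReal_mul (by positivity), ← ENNReal.ofReal_mul (Real.exp_pos _).le]
        apply ENNReal.ofReal_le_ofReal
        have h3 := norm_up hd1 n hx1
        calc c ^ 2 * Real.exp (-((1 - η) * (4 * n + 1))) ≤ c ^ 2 * Real.exp (-‖x‖ + η * ‖x‖) := by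
              gcongr
              nlinarith
          _ = _ := by rw [Real.exp_add]; ring
    _ = ∫⁻ x in S, ENNReal.ofReal c ^ 2 * ENNReal.ofReal (wt hd1 η x) ∂(mu d) := by
        rw [lint_mu_set _ (by fun_prop) _ hSm]
    _ ≤ ∫⁻ x in S, ‖T (fn hd1 n) x‖ₑ ^ 2 * ENNReal.ofReal (wt hd1 η x) ∂(mu d) := by
        apply lintegral_mono_ae
        filter_upwards [ae_restrict_mem hSm] with x hx
        gcongr
        exact hlow x hx.1
    _ ≤ _ := setLIntegral_le_lintegral _ _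

lemma tend_lin : Tendsto (fun n : ℕ => 4 * (n:ℝ) - 1) atTop atTop :=
  (tendsto_natCast_atTop_atTop.const_mul_atTop (by norm_num : (0:ℝ) < 4)).atTop_add tendsto_const_nhds

lemma tend_pn : Tendsto pn atTop (𝓝 0) := by
  unfold pn
  exact Real.tendsto_exp_neg_atTop_nhds_zero.comp (Real.tendsto_exp_atTop.comp tend_lin)

lemma ev_low (hd1 : 1 ≤ d) : ∀ᶠ n : ℕ in atTop,
    kap d * Real.exp (-2) / 2 ≤ kap d * Real.exp (-2) - Real.exp (-(4 * n + 1)) * (kap d * Real.log 8 + vb d) := by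
  have hk := kap_pos hd1
  have h1 : Tendsto (fun n : ℕ => Real.exp (-(4 * (n:ℝ) + 1)) * (kap d * Real.log 8 + vb d)) atTop (𝓝 0) := by
    have h2 : Tendsto (fun n : ℕ => 4 * (n:ℝ) + 1) atTop atTop :=
      (tendsto_natCast_atTop_atTop.const_mul_atTop (by norm_num : (0:ℝ) < 4)).atTop_add tendsto_const_nhds
    have h3 := (Real.tendsto_exp_neg_atTop_nhds_zero.comp h2).mul_const (kap d * Real.log 8 + vb d)
    simpa using h3
  have hpos : 0 < kap d * Real.exp (-2) / 2 := by positivity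
  filter_upwards [h1.eventually (gt_mem_nhds hpos)] with n hn
  linarith

lemma not_bounded (hd1 : 1 ≤ d) {η : ℝ} (h0 : 0 < η) (h1 : η < 1) (A : ℝ≥0∞) (hA : A < ⊤) :
    ¬ WeightedBound (mu d) (wt hd1 η) T A := by
  intro hW
  obtain ⟨a, ha0, rfl⟩ : ∃ a : ℝ, 0 ≤ a ∧ A = ENNReal.ofReal a :=
    ⟨A.toReal, ENNReal.toReal_nonneg, (ENNReal.ofReal_toReal hA.ne).symm⟩
  have hk := kap_pos hd1
  have hv := vb_pos d
  set c : ℝ := kap d * Real.exp (-2) / 2 with hc
  have hc0 : 0 < c := by positivity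
  -- growth
  have hgrow : Tendsto (fun n : ℕ => Real.exp (8 * n * η - 2)) atTop atTop := by
    apply Real.tendsto_exp_atTop.comp
    have : Tendsto (fun n : ℕ => (8 * η) * (n:ℝ)) atTop atTop :=
      tendsto_natCast_atTop_atTop.const_mul_atTop (by positivity)
    have h2 := this.atTop_add (tendsto_const_nhds (x := (-2:ℝ)))
    refine h2.congr fun n => ?_
    ring
  set K0 : ℝ := a ^ 2 / (c ^ 2 * ((1/4) ^ d / 2)) with hK0
  have ev1 := hgrow.eventually_gt_atTop K0
  have ev2 : ∀ᶠ n in atTop, pn n ≤ 1/16 := (tend_pn.eventually (gt_mem_nhds (by norm_num : (0:ℝ) < 1/16))).mono fun n h => le_of_lt h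
  obtain ⟨n, hn1, hn2, hn3⟩ := (ev1.and (ev2.and (ev_low hd1))).exists
  have hlow : ∀ x ∈ ball (cn hd1 n) (1/2), ENNReal.ofReal c ≤ ‖T (fn hd1 n) x‖ₑ := by
    intro x hx
    rw [T_fn]
    exact (ENNReal.ofReal_le_ofReal hn3).trans (mu_lower hd1 n hn2 hx)
  have hL := lhs_ge hd1 h0 h1 n hn2 c hc0.le hlow
  have hR := rhs_le hd1 h0 n
  have hb := hW (fn hd1 n) (fn_meas hd1 n) (fn_bdd hd1 n) (fn_supp hd1 n)
  have h2 := (hL.trans hb).trans (mul_le_mul_right hR _)
  rw [← ENNReal.ofReal_pow ha0, ← ENNReal.ofReal_mul (by positivity), ENNReal.ofReal_le_ofReal_iff (by positivity)] at h2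
  -- real inequality
  rw [hK0, div_lt_iff₀ (by positivity)] at hn1
  have e1 : Real.exp (8 * n * η - 2) * Real.exp (-((1 + η) * (4 * n - 1))) = Real.exp (-((1 - η) * (4 * n + 1))) := by
    rw [← Real.exp_add]; congr 1; ring
  have hE : 0 < Real.exp (-((1 + η) * (4 * (n:ℝ) - 1))) * vb d := by positivity
  have h3 : a ^ 2 * (Real.exp (-((1 + η) * (4 * (n:ℝ) - 1))) * vb d) <
      Real.exp (8 * n * η - 2) * (c ^ 2 * ((1/4) ^ d / 2)) * (Real.exp (-((1 + η) * (4 * (n:ℝ) - 1))) * vb d) :=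
    mul_lt_mul_of_pos_right hn1 hE
  have h4 : Real.exp (8 * n * η - 2) * (c ^ 2 * ((1/4) ^ d / 2)) * (Real.exp (-((1 + η) * (4 * (n:ℝ) - 1))) * vb d) =
      c ^ 2 * Real.exp (-((1 - η) * (4 * n + 1))) * ((1/4) ^ d * vb d / 2) := by
    rw [← e1]; ring
  linarith

end Pool.Agent.Helper49.ND.Main
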